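import Mathlib

namespace Pool.Agent.Results.MP_d51828_nt.TwoAdic

theorem lucas_even (m : ℕ) (hm : 1 ≤ m) :
    (2 * (2 * m) - 1).choose (2 * m) % 2 = (2 * m - 1).choose m % 2 := by
  have h := @Choose.choose_modEq_choose_mod_mul_choose_div_nat (2 * (2 * m) - 1) (2 * m) 2 ⟨Nat.prime_two⟩
  have h1 : (2 * (2 * m) - 1) % 2 = 1 := by omega
  have h2 : (2 * m) % 2 = 0 := by omega
  have h3 : (2 * (2 * m) - 1) / 2 = 2 * m - 1 := by omega
  have h4 : (2 * m) / 2 = m := by omega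
  rw [h1, h2, h3, h4] at h
  simpa [Nat.ModEq] using h

theorem lucas_odd (m : ℕ) (hm : 1 ≤ m) :
    (2 * (2 * m + 1) - 1).choose (2 * m + 1) % 2 = 0 := by
  have h := @Choose.choose_modEq_choose_mod_mul_choose_div_nat (2 * (2 * m + 1) - 1) (2 * m + 1) 2 ⟨Nat.prime_two⟩
  have h1 : (2 * (2 * m + 1) - 1) % 2 = 1 := by omega
  have h2 : (2 * m + 1) % 2 = 1 := by omega
  have h3 : (2 * (2 * m + 1) - 1) / 2 = 2 * m := by omega
  have h4 : (2 * m + 1) / 2 = m := by omega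
  rw [h1, h2, h3, h4] at h
  have h5 := Nat.two_dvd_centralBinom_of_one_le (n := m) hm
  rw [Nat.centralBinom_eq_two_mul_choose] at h5
  have h6 : (2 * (2 * m + 1) - 1).choose (2 * m + 1) % 2 = (2 * m).choose m % 2 := by
    simpa [Nat.ModEq] using h
  omega

theorem odd_choose (n : ℕ) : 1 ≤ n → ((2 * n - 1).choose n % 2 = 1 ↔ ∃ k, n = 2 ^ k) := by
  induction n using Nat.strong_induction_on with
  | _ n ih =>
    intro hn
    rcases Nat.even_or_odd' n with ⟨m, rfl | rfl⟩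
    · have hm : 1 ≤ m := by omega
      rw [lucas_even m hm, ih m (by omega) hm]
      constructor
      · rintro ⟨k, rfl⟩
        exact ⟨k + 1, by ring⟩
      · rintro ⟨k, hk⟩
        cases k with
        | zero => omega
        | succ k => exact ⟨k, by rw [pow_succ] at hk; omega⟩
    · rcases Nat.eq_zero_or_pos m with rfl | hm
      · simp only [mul_zero, zero_add, mul_one]
        exact ⟨fun _ => ⟨0, rfl⟩, fun _ => by decide⟩
      · rw [lucas_odd m hm]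
        constructor
        · intro h; omega
        · rintro ⟨k, hk⟩
          cases k with
          | zero => omega
          | succ k => rw [pow_succ] at hk; omega

theorem odd_poly (n : ℕ) : Odd (21 * (n : ℤ) ^ 3 + 22 * n ^ 2 + 8 * n + 1) ↔ n % 2 = 0 := by
  rcases Nat.even_or_odd' n with ⟨m, rfl | rfl⟩
  · refine ⟨fun _ => by omega, fun _ => ⟨84 * m ^ 3 + 44 * m ^ 2 + 8 * m, by push_cast; ring⟩⟩
  · refine ⟨fun h => ?_, fun h => by omega⟩
    exfalso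
    refine Int.not_odd_iff_even.2 ⟨84 * m ^ 3 + 170 * m ^ 2 + 115 * m + 26, ?_⟩ h
    push_cast; ring

theorem key (a : ℕ → ℚ) (h1 : a 1 = 2)
    (hrec : ∀ n : ℕ, 2 ≤ n → (2 * (n : ℚ) + 1) ^ 3 * a n =
      32 * (n : ℚ) ^ 3 * a (n - 1) +
        (21 * (n : ℚ) ^ 3 + 22 * (n : ℚ) ^ 2 + 8 * n + 1) * (((2 * n - 1).choose n : ℕ) : ℚ) ^ 4)
    (n : ℕ) (hn : 1 ≤ n) :
    ∃ u v : ℤ, Odd v ∧ a n * v = u ∧ (Odd u ↔ ∃ k, 1 ≤ k ∧ n = 2 ^ k) := by
  induction n, hn using Nat.le_induction with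
  | base =>
    refine ⟨2, 1, odd_one, by simp [h1], fun h => absurd h (by decide), ?_⟩
    rintro ⟨k, hk, h⟩
    cases k with
    | zero => omega
    | succ k => rw [pow_succ] at h; omega
  | succ m hm ih =>
    obtain ⟨u, v, hv, huv, -⟩ := ih
    have h := hrec (m + 1) (by omega)
    rw [Nat.add_sub_cancel] at h
    set n := m + 1 with hnm
    refine ⟨32 * (n : ℤ) ^ 3 * u + (21 * (n : ℤ) ^ 3 + 22 * n ^ 2 + 8 * n + 1) *
      (((2 * n - 1).choose n : ℕ) : ℤ) ^ 4 * v, (2 * (n : ℤ) + 1) ^ 3 * v, ?_, ?_, ?_⟩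
    · exact (Odd.pow (⟨(n : ℤ), rfl⟩ : Odd (2 * (n : ℤ) + 1))).mul hv
    · push_cast
      rw [← huv]
      linear_combination (v : ℚ) * h
    · have he : Even (32 * (n : ℤ) ^ 3 * u) := ⟨16 * (n : ℤ) ^ 3 * u, by ring⟩
      rw [Int.odd_add', Int.odd_mul, Int.odd_mul, odd_poly, Int.odd_pow' (by norm_num),
        Int.odd_coe_nat, Nat.odd_iff, odd_choose n (by omega)]
      constructor
      · intro h2
        obtain ⟨⟨h3, k, hk⟩, -⟩ := h2.2 he
        refine ⟨k, ?_, hk⟩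
        cases k with
        | zero => omega
        | succ k => omega
      · rintro ⟨k, hk, hnk⟩
        refine ⟨fun _ => he, fun _ => ⟨⟨?_, k, hnk⟩, hv⟩⟩
        cases k with
        | zero => omega
        | succ k => rw [pow_succ] at hnk; omega

theorem result (a : ℕ → ℚ) (h1 : a 1 = 2)
    (hrec : ∀ n : ℕ, 2 ≤ n → (2 * (n : ℚ) + 1) ^ 3 * a n =
      32 * (n : ℚ) ^ 3 * a (n - 1) +
        (21 * (n : ℚ) ^ 3 + 22 * (n : ℚ) ^ 2 + 8 * n + 1) * (((2 * n - 1).choose n : ℕ) : ℚ) ^ 4)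
    (n : ℕ) (hn : 1 ≤ n) :
    Odd (a n).den ∧ (Odd (a n).num ↔ ∃ k, 1 ≤ k ∧ n = 2 ^ k) ∧
      ∀ z : ℤ, a n = z → (Odd z ↔ ∃ k, 1 ≤ k ∧ n = 2 ^ k) := by
  obtain ⟨u, v, hv, huv, hu⟩ := key a h1 hrec n hn
  have hd : ((a n).den : ℚ) ≠ 0 := by exact_mod_cast (a n).den_nz
  have he : (a n).num * v = u * (a n).den := by
    have : ((a n).num : ℚ) * v = u * (a n).den := by
      rw [← huv, ← Rat.mul_den_eq_num]; ring
    exact_mod_cast this
  have hco : IsCoprime ((a n).den : ℤ) (a n).num := by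
    rw [Int.isCoprime_iff_gcd_eq_one, Int.gcd_comm]
    exact (a n).reduced
  have hdv : ((a n).den : ℤ) ∣ v := hco.dvd_of_dvd_mul_left ⟨u, by rw [he]; ring⟩
  have hod : Odd ((a n).den : ℤ) := by
    obtain ⟨w, hw⟩ := hdv
    have hv' := hv
    rw [hw] at hv'
    exact (Int.odd_mul.1 hv').1
  have hnum : Odd (a n).num ↔ ∃ k, 1 ≤ k ∧ n = 2 ^ k := by
    rw [← hu]
    have h2 : Odd ((a n).num * v) ↔ Odd (u * (a n).den) := by rw [he]
    rw [Int.odd_mul, Int.odd_mul] at h2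
    exact ⟨fun h => (h2.1 ⟨h, hv⟩).1, fun h => (h2.2 ⟨h, hod⟩).1⟩
  refine ⟨by exact_mod_cast hod, hnum, fun z hz => ?_⟩
  rw [← hnum, hz, Rat.num_intCast]

end Pool.Agent.Results.MP_d51828_nt.TwoAdic
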